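import Pool.Agent.Helper78_E.Stmts2

/-!
# DENS: exponential sums are dense in `L^1` of the half-line
-/

namespace Pool.Agent.H78E.H13

open MeasureTheory Filter Topology Complex Pool.Agent.H78E

noncomputable section

theorem continuousOn_comp_log {g : ℝ → ℂ} (hg : Continuous g) (hc : HasCompactSupport g) :
    Continuous (fun u : ℝ => g (-Real.log |u|) / (u : ℂ)) := by
  rw [continuous_iff_continuousAt]
  intro u
  by_cases hu : u = 0
  · subst hu
    -- `g` vanishes far out
    obtain ⟨R, hR⟩ : ∃ R : ℝ, ∀ t : ℝ, R < t → g t = 0 := by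
      obtain ⟨R, hR⟩ := hc.isCompact.isBounded.subset_closedBall (0 : ℝ)
      refine ⟨R, fun t ht => ?_⟩
      by_contra hne
      have h1 : t ∈ tsupport g := subset_tsupport g hne
      have h2 := hR h1
      rw [Metric.mem_closedBall, Real.dist_eq, sub_zero] at h2
      linarith [le_abs_self t]
    have hev : (fun u : ℝ => g (-Real.log |u|) / (u : ℂ)) =ᶠ[𝓝 0] fun _ => 0 := by
      have h1 : ∀ᶠ u : ℝ in 𝓝 0, |u| < Real.exp (-R) := by
        have : Continuous fun u : ℝ => |u| := continuous_abs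
        have h2 := this.tendsto 0
        rw [abs_zero] at h2
        exact h2.eventually (gt_mem_nhds (Real.exp_pos _))
      filter_upwards [h1] with u hu
      by_cases h0 : u = 0
      · rw [h0]
        simp
      · have h3 : 0 < |u| := abs_pos.2 h0
        have h4 : Real.log |u| < -R := by
          rw [← Real.log_exp (-R)]
          exact Real.log_lt_log h3 hu
        rw [hR _ (by linarith), zero_div]
    exact continuousAt_const.congr hev.symm
  · have h1 : ContinuousAt (fun u : ℝ => Real.log |u|) u := by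
      have h2 : ContinuousAt (fun u : ℝ => |u|) u := continuous_abs.continuousAt
      exact h2.log (abs_ne_zero.2 hu)
    have h2 : ContinuousAt (fun u : ℝ => g (-Real.log |u|)) u :=
      hg.continuousAt.comp h1.neg
    have h3 : ContinuousAt (fun u : ℝ => (u : ℂ)) u := Complex.continuous_ofReal.continuousAt
    exact h2.div h3 (by exact_mod_cast hu)

/-- approximation by polynomials with complex coefficients -/
theorem exists_poly {h : ℝ → ℂ} (hh : Continuous h) {ε : ℝ} (hε : 0 < ε) :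
    ∃ (N : ℕ) (c : ℕ → ℂ), ∀ u : ℝ, 0 ≤ u → u ≤ 1 →
      ‖h u - ∑ n ∈ Finset.range N, c n * (u : ℂ) ^ n‖ ≤ ε := by
  obtain ⟨p, hp⟩ := exists_polynomial_near_of_continuousOn 0 1 (fun u => (h u).re)
    (Complex.continuous_re.comp hh).continuousOn (ε / 2) (by linarith)
  obtain ⟨r, hr⟩ := exists_polynomial_near_of_continuousOn 0 1 (fun u => (h u).im)
    (Complex.continuous_im.comp hh).continuousOn (ε / 2) (by linarith)
  refine ⟨max (p.natDegree + 1) (r.natDegree + 1), fun n => (p.coeff n : ℂ) + Complex.I * (r.coeff n : ℂ),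
    fun u h0 h1 => ?_⟩
  have hpe : p.eval u = ∑ n ∈ Finset.range (max (p.natDegree + 1) (r.natDegree + 1)), p.coeff n * u ^ n :=
    p.eval_eq_sum_range' (lt_of_lt_of_le (Nat.lt_succ_self _) (le_max_left _ _)) u
  have hre : r.eval u = ∑ n ∈ Finset.range (max (p.natDegree + 1) (r.natDegree + 1)), r.coeff n * u ^ n :=
    r.eval_eq_sum_range' (lt_of_lt_of_le (Nat.lt_succ_self _) (le_max_right _ _)) u
  have e : ∑ n ∈ Finset.range (max (p.natDegree + 1) (r.natDegree + 1)),
      ((p.coeff n : ℂ) + Complex.I * (r.coeff n : ℂ)) * (u : ℂ) ^ n =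
      ((p.eval u : ℝ) : ℂ) + Complex.I * ((r.eval u : ℝ) : ℂ) := by
    rw [hpe, hre]
    push_cast
    rw [Finset.mul_sum, ← Finset.sum_add_distrib]
    refine Finset.sum_congr rfl fun n _ => ?_
    ring
  rw [e]
  have e2 : h u = (((h u).re : ℝ) : ℂ) + Complex.I * (((h u).im : ℝ) : ℂ) := by
    apply Complex.ext <;> simp
  have e3 : h u - (((p.eval u : ℝ) : ℂ) + Complex.I * ((r.eval u : ℝ) : ℂ)) =
      (((h u).re - p.eval u : ℝ) : ℂ) + Complex.I * (((h u).im - r.eval u : ℝ) : ℂ) := by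
    conv_lhs => rw [e2]
    push_cast
    ring
  rw [e3]
  refine (norm_add_le _ _).trans ?_
  rw [norm_mul, Complex.norm_I, one_mul, Complex.norm_real, Complex.norm_real, Real.norm_eq_abs,
    Real.norm_eq_abs]
  have h2 := hp u ⟨h0, h1⟩
  have h3 := hr u ⟨h0, h1⟩
  rw [abs_sub_comm] at h2 h3
  linarith

theorem dens : DensStmt := by
  intro f hf η hη
  have hf' : Integrable ((Set.Ioi (0 : ℝ)).indicator f) volume :=
    hf.integrable_indicator measurableSet_Ioi
  obtain ⟨g, hgc, hfg, hgcont, hgint⟩ :=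
    hf'.exists_hasCompactSupport_integral_sub_le (show 0 < η / 3 by linarith)
  obtain ⟨N, c, hP⟩ := exists_poly (continuousOn_comp_log hgcont hgc) (show 0 < η / 3 by linarith)
  refine ⟨N, c, ?_⟩
  have hexp : ∀ t : ℝ, ∑ n ∈ Finset.range N, c n * Complex.exp (-(((n : ℂ) + 1) * (t : ℂ))) =
      (Real.exp (-t) : ℂ) * ∑ n ∈ Finset.range N, c n * ((Real.exp (-t) : ℝ) : ℂ) ^ n := by
    intro t
    rw [Finset.mul_sum]
    refine Finset.sum_congr rfl fun n _ => ?_
    have : Complex.exp (-(((n : ℂ) + 1) * (t : ℂ))) =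
        ((Real.exp (-t) : ℝ) : ℂ) * ((Real.exp (-t) : ℝ) : ℂ) ^ n := by
      rw [Complex.ofReal_exp, ← Complex.exp_nat_mul, ← Complex.exp_add]
      congr 1
      push_cast
      ring
    rw [this]
    ring
  have hpt : ∀ t : ℝ, 0 < t → ‖g t - ∑ n ∈ Finset.range N, c n * Complex.exp (-(((n : ℂ) + 1) * (t : ℂ)))‖ ≤
      Real.exp (-t) * (η / 3) := by
    intro t ht
    have h1 : Real.exp (-t) ≤ 1 := by
      rw [← Real.exp_zero]
      exact Real.exp_le_exp.2 (by linarith)
    have h2 := hP (Real.exp (-t)) (Real.exp_pos _).le h1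
    have h3 : ((Real.exp (-t) : ℝ) : ℂ) ≠ 0 := by exact_mod_cast (Real.exp_pos _).ne'
    rw [abs_of_pos (Real.exp_pos _), Real.log_exp, neg_neg] at h2
    have h4 : g t - ∑ n ∈ Finset.range N, c n * Complex.exp (-(((n : ℂ) + 1) * (t : ℂ))) =
        ((Real.exp (-t) : ℝ) : ℂ) * (g t / ((Real.exp (-t) : ℝ) : ℂ) -
          ∑ n ∈ Finset.range N, c n * ((Real.exp (-t) : ℝ) : ℂ) ^ n) := by
      rw [hexp, mul_sub, mul_div_cancel₀ _ h3]
    rw [h4, norm_mul, Complex.norm_real, Real.norm_eq_abs, abs_of_pos (Real.exp_pos _)]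
    exact mul_le_mul_of_nonneg_left h2 (Real.exp_pos _).le
  have hEint : IntegrableOn (fun t : ℝ => Real.exp (-t) * (η / 3)) (Set.Ioi 0) volume :=
    (integrableOn_exp_neg_Ioi 0).mul_const _
  have hPint : IntegrableOn (fun t : ℝ => ∑ n ∈ Finset.range N,
      c n * Complex.exp (-(((n : ℂ) + 1) * (t : ℂ)))) (Set.Ioi 0) volume := by
    refine integrable_finsetSum _ fun n _ => ?_
    refine (integrable_exp (a := (n : ℂ) + 1) ?_).const_mul _
    simp only [Complex.add_re, Complex.natCast_re, Complex.one_re]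
    positivity
  have hle : ∫ t in Set.Ioi (0 : ℝ),
      ‖f t - ∑ n ∈ Finset.range N, c n * Complex.exp (-(((n : ℂ) + 1) * (t : ℂ)))‖ ≤
      ∫ t in Set.Ioi (0 : ℝ), (‖f t - g t‖ + Real.exp (-t) * (η / 3)) := by
    refine setIntegral_mono_on ?_ ?_ measurableSet_Ioi ?_
    · exact (hf.sub hPint).norm
    · exact ((hf.sub hgint.integrableOn).norm).add hEint
    · intro t ht
      have h1 := hpt t ht
      have h2 : f t - ∑ n ∈ Finset.range N, c n * Complex.exp (-(((n : ℂ) + 1) * (t : ℂ))) =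
        (f t - g t) + (g t - ∑ n ∈ Finset.range N, c n * Complex.exp (-(((n : ℂ) + 1) * (t : ℂ)))) := by
        ring
      rw [h2]
      exact (norm_add_le _ _).trans (by linarith)
  have hint1 : ∫ t in Set.Ioi (0 : ℝ), ‖f t - g t‖ ≤ η / 3 := by
    refine le_trans ?_ hfg
    have e1 : ∫ t in Set.Ioi (0 : ℝ), ‖f t - g t‖ =
        ∫ t in Set.Ioi (0 : ℝ), ‖(Set.Ioi (0 : ℝ)).indicator f t - g t‖ := by
      refine setIntegral_congr_fun measurableSet_Ioi ?_
      intro t ht
      simp only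
      rw [Set.indicator_of_mem ht]
    rw [e1]
    exact setIntegral_le_integral (hf'.sub hgint).norm (Eventually.of_forall fun _ => norm_nonneg _)
  have hint2 : ∫ t in Set.Ioi (0 : ℝ), Real.exp (-t) * (η / 3) = η / 3 := by
    rw [integral_mul_const, integral_exp_neg_Ioi_zero, one_mul]
  have hsum : ∫ t in Set.Ioi (0 : ℝ), (‖f t - g t‖ + Real.exp (-t) * (η / 3)) =
      (∫ t in Set.Ioi (0 : ℝ), ‖f t - g t‖) + ∫ t in Set.Ioi (0 : ℝ), Real.exp (-t) * (η / 3) :=
    integral_add ((hf.sub hgint.integrableOn).norm) hEint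
  rw [hsum, hint2] at hle
  linarith

end

end Pool.Agent.H78E.H13
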