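import Pool.Agent.Helper78_E.Stmts2

/-!
# RESID and LBD
-/

namespace Pool.Agent.H78E.H13

open MeasureTheory Filter Topology Complex Pool.Agent.H78E

noncomputable section

variable {E : Type} [NormedAddCommGroup E] [NormedSpace ℂ E] [CompleteSpace E] (S : CSemi E)

theorem norm_exp_real (a : ℂ) (v : ℝ) : ‖Complex.exp (a * (v : ℂ))‖ = Real.exp (a.re * v) := by
  rw [Complex.norm_exp]
  simp

omit [CompleteSpace E] in
/-- the function `v ↦ exp(cv) T_v y` is continuous from the right at `0` -/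
theorem cont_zero (c : ℂ) (y : E) :
    ContinuousWithinAt (fun v : ℝ => Complex.exp (c * (v : ℂ)) • S.T v y) (Set.Ici 0) 0 := by
  have h1 : Continuous (fun v : ℝ => Complex.exp (c * (v : ℂ)) • S.T (max v 0) y) := by
    refine Continuous.smul ?_ (S.cont y)
    fun_prop
  refine h1.continuousWithinAt.congr ?_ ?_
  · intro v hv
    rw [max_eq_left hv]
  · rw [max_self]

theorem resid : ResidStmt := by
  intro E _ _ _ S a b ha hb x
  have h := integral_Ioi_of_hasDerivAt_of_tendsto (a := (0 : ℝ)) (m := (0 : E))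
    (f := fun v : ℝ => Complex.exp (-a * (v : ℂ)) • S.T v (S.En b x))
    (f' := fun v : ℝ => Complex.exp (-a * (v : ℂ)) • ((-a + b) • S.T v (S.En b x) - S.T v x))
    (cont_zero S _ _) (fun v hv => S.hasDerivAt_T_En hb (-a) x hv) ?_ ?_
  · have e1 : (fun v : ℝ => Complex.exp (-a * (v : ℂ)) • ((-a + b) • S.T v (S.En b x) - S.T v x)) =
        fun v : ℝ => (-a + b) • (Complex.exp (-(a * (v : ℂ))) • S.T v (S.En b x)) -
          Complex.exp (-(a * (v : ℂ))) • S.T v x := by
      funext v
      rw [smul_sub, smul_comm, neg_mul]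
    rw [e1, integral_sub, integral_smul, ← S.En_apply ha, ← S.En_apply ha] at h
    · have e0 : Complex.exp (-a * ((0 : ℝ) : ℂ)) • S.T 0 (S.En b x) = S.En b x := by
        rw [S.zero]
        simp
      rw [e0, zero_sub] at h
      have e2 : (b - a) • S.En a (S.En b x) = (-a + b) • S.En a (S.En b x) := by
        congr 1
        ring
      rw [e2]
      have e3 : (-a + b) • S.En a (S.En b x) = S.En a x + ((-a + b) • S.En a (S.En b x) - S.En a x) := by
        abel
      rw [e3, h]
      abel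
    · exact (S.cont_mul (integrable_exp ha) _).smul _
    · exact S.cont_mul (integrable_exp ha) _
  · have h1 := (S.cont_mul (integrable_exp ha) (S.En b x)).smul (-a + b)
    have h2 := S.cont_mul (integrable_exp ha) x
    refine (h1.sub h2).congr ?_
    filter_upwards with v
    simp only [Pi.sub_apply, Pi.smul_apply]
    rw [smul_sub, smul_comm, neg_mul]
  · rw [tendsto_zero_iff_norm_tendsto_zero]
    have h1 : Tendsto (fun v : ℝ => Real.exp ((-a).re * v) * ‖S.En b x‖) atTop (𝓝 0) := by
      have h2 : Tendsto (fun v : ℝ => Real.exp ((-a).re * v)) atTop (𝓝 0) := by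
        refine Real.tendsto_exp_atBot.comp ?_
        exact tendsto_id.const_mul_atTop_of_neg (by simpa using ha)
      simpa using h2.mul_const ‖S.En b x‖
    refine squeeze_zero' (Eventually.of_forall fun _ => norm_nonneg _) ?_ h1
    filter_upwards [eventually_ge_atTop 0] with v hv
    rw [norm_smul, norm_exp_real]
    exact mul_le_mul_of_nonneg_left (S.norm_le v hv _) (Real.exp_pos _).le

theorem key (a : ℂ) (ha : 0 < a.re) (x : E) {v : ℝ} (hv : 0 ≤ v) :
    ‖Complex.exp (-(a * (v : ℂ))) • S.En 1 x - S.T v (S.En 1 x)‖ ≤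
      ‖x - (1 + a) • S.En 1 x‖ / a.re := by
  set D : E := x - (1 + a) • S.En 1 x with hD
  have h1re : (0 : ℝ) < (1 : ℂ).re := by simp
  have hFTC : ∫ t in (0 : ℝ)..v, Complex.exp (a * (t : ℂ)) •
      ((a + 1) • S.T t (S.En 1 x) - S.T t x) =
      Complex.exp (a * (v : ℂ)) • S.T v (S.En 1 x) -
        Complex.exp (a * ((0 : ℝ) : ℂ)) • S.T 0 (S.En 1 x) := by
    refine intervalIntegral.integral_eq_sub_of_hasDerivAt_of_le
      (f := fun t : ℝ => Complex.exp (a * (t : ℂ)) • S.T t (S.En 1 x)) hv ?_ ?_ ?_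
    · have h1 : Continuous (fun v : ℝ => Complex.exp (a * (v : ℂ)) • S.T (max v 0) (S.En 1 x)) := by
        refine Continuous.smul ?_ (S.cont _)
        fun_prop
      refine h1.continuousOn.congr ?_
      intro t ht
      simp only
      rw [max_eq_left ht.1]
    · intro t ht
      exact S.hasDerivAt_T_En h1re a x ht.1
    · have h1 : Continuous (fun t : ℝ => Complex.exp (a * (t : ℂ)) •
          ((a + 1) • S.T (max t 0) (S.En 1 x) - S.T (max t 0) x)) := by
        refine Continuous.smul (by fun_prop) (((S.cont _).const_smul _).sub (S.cont _))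
      refine (h1.intervalIntegrable 0 v).congr ?_
      intro t ht
      rw [Set.uIoc_of_le hv] at ht
      simp only
      rw [max_eq_left ht.1.le]
  have hD' : ∀ t : ℝ, (a + 1) • S.T t (S.En 1 x) - S.T t x = -(S.T t D) := by
    intro t
    rw [hD, map_sub, map_smul, add_comm a 1]
    abel
  simp_rw [hD'] at hFTC
  have e0 : Complex.exp (a * ((0 : ℝ) : ℂ)) • S.T 0 (S.En 1 x) = S.En 1 x := by
    rw [S.zero]
    simp
  rw [e0] at hFTC
  have hnorm : ‖∫ t in (0 : ℝ)..v, Complex.exp (a * (t : ℂ)) • -(S.T t D)‖ ≤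
      ∫ t in (0 : ℝ)..v, Real.exp (a.re * t) * ‖D‖ := by
    refine intervalIntegral.norm_integral_le_of_norm_le hv ?_ ?_
    · refine Eventually.of_forall fun t ht => ?_
      rw [norm_smul, norm_neg, norm_exp_real]
      exact mul_le_mul_of_nonneg_left (S.norm_le t ht.1.le _) (Real.exp_pos _).le
    · exact (Continuous.mul (by fun_prop) continuous_const).intervalIntegrable _ _
  have hint : ∫ t in (0 : ℝ)..v, Real.exp (a.re * t) * ‖D‖ =
      (Real.exp (a.re * v) - 1) / a.re * ‖D‖ := by
    rw [intervalIntegral.integral_mul_const]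
    congr 1
    have h3 := intervalIntegral.integral_comp_mul_left (fun t => Real.exp t) ha.ne' (a := 0) (b := v)
    rw [h3, integral_exp, mul_zero, Real.exp_zero, smul_eq_mul]
    field_simp
  rw [hint, hFTC] at hnorm
  have e1 : Complex.exp (-(a * (v : ℂ))) • S.En 1 x - S.T v (S.En 1 x) =
      -(Complex.exp (-(a * (v : ℂ))) • (Complex.exp (a * (v : ℂ)) • S.T v (S.En 1 x) - S.En 1 x)) := by
    rw [smul_sub, smul_smul, ← Complex.exp_add]
    simp
  rw [e1, norm_neg, norm_smul]
  have e2 : ‖Complex.exp (-(a * (v : ℂ)))‖ = Real.exp (-(a.re * v)) := by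
    rw [← neg_mul, norm_exp_real]
    simp
  rw [e2]
  calc Real.exp (-(a.re * v)) * ‖Complex.exp (a * (v : ℂ)) • S.T v (S.En 1 x) - S.En 1 x‖
      ≤ Real.exp (-(a.re * v)) * ((Real.exp (a.re * v) - 1) / a.re * ‖D‖) :=
        mul_le_mul_of_nonneg_left hnorm (Real.exp_pos _).le
    _ = (1 - Real.exp (-(a.re * v))) / a.re * ‖D‖ := by
        have : Real.exp (-(a.re * v)) * Real.exp (a.re * v) = 1 := by
          rw [← Real.exp_add]
          simp
        have e3 : Real.exp (-(a.re * v)) * ((Real.exp (a.re * v) - 1) / a.re * ‖D‖) =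
          (Real.exp (-(a.re * v)) * Real.exp (a.re * v) - Real.exp (-(a.re * v))) / a.re * ‖D‖ := by
          ring
        rw [e3, this]
    _ ≤ 1 / a.re * ‖D‖ := by
        refine mul_le_mul_of_nonneg_right ?_ (norm_nonneg _)
        refine div_le_div_of_nonneg_right ?_ ha.le
        have := Real.exp_pos (-(a.re * v))
        linarith
    _ = ‖D‖ / a.re := by ring

theorem lbd : LbdStmt := by
  intro E _ _ _ S f hf hpi a ha x
  set D : E := x - (1 + a) • S.En 1 x with hD
  have hfe : IntegrableOn (fun t : ℝ => f t * Complex.exp (-(a * (t : ℂ)))) (Set.Ioi 0) volume := by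
    refine hf.mul_bdd (c := 1) ?_ ?_
    · exact (Continuous.aestronglyMeasurable (by fun_prop))
    · filter_upwards [ae_restrict_mem measurableSet_Ioi] with t ht
      rw [← neg_mul, norm_exp_real, ← Real.exp_zero]
      apply Real.exp_le_exp.2
      have h1 : (0 : ℝ) < t := ht
      simp only [Complex.neg_re]
      nlinarith
  have h1 : (∫ t in Set.Ioi (0 : ℝ), f t * Complex.exp (-(a * (t : ℂ)))) • S.En 1 x =
      ∫ t in Set.Ioi (0 : ℝ), f t • (Complex.exp (-(a * (t : ℂ))) • S.En 1 x - S.T t (S.En 1 x)) := by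
    have h2 : S.pi f (S.En 1 x) = 0 := by rw [hpi]; rfl
    rw [S.pi_apply hf] at h2
    simp_rw [smul_sub, smul_smul]
    rw [integral_sub (hfe.smul_const _) (S.cont_mul hf _), h2, sub_zero, integral_smul_const]
  have h3 : ‖(∫ t in Set.Ioi (0 : ℝ), f t * Complex.exp (-(a * (t : ℂ)))) • S.En 1 x‖ ≤
      ∫ t in Set.Ioi (0 : ℝ), ‖f t‖ * (‖D‖ / a.re) := by
    rw [h1]
    refine norm_integral_le_of_norm_le (hf.norm.mul_const _) ?_
    filter_upwards [ae_restrict_mem measurableSet_Ioi] with t ht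
    rw [norm_smul]
    exact mul_le_mul_of_nonneg_left (key S a ha x (le_of_lt ht)) (norm_nonneg _)
  rw [integral_mul_const, norm_smul] at h3
  calc ‖∫ t in Set.Ioi (0 : ℝ), f t * Complex.exp (-(a * (t : ℂ)))‖ * a.re * ‖S.En 1 x‖
      = ‖∫ t in Set.Ioi (0 : ℝ), f t * Complex.exp (-(a * (t : ℂ)))‖ * ‖S.En 1 x‖ * a.re := by ring
    _ ≤ ((∫ t in Set.Ioi (0 : ℝ), ‖f t‖) * (‖D‖ / a.re)) * a.re :=
        mul_le_mul_of_nonneg_right h3 ha.le
    _ = (∫ t in Set.Ioi (0 : ℝ), ‖f t‖) * ‖D‖ := by
        field_simp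

end

end Pool.Agent.H78E.H13
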